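import Pool.Agent.Q154.OS.Slow

/-!
# Converse of the `Ω`-stability theorem: returns away from the closure of the periodic points

`V n = ℝⁿ`, `DiffM n N r` is `Diff^r(N)`, `strongTop n N r` is its strong (Whitney) `C^r` topology (the
usual one, `N` being compact) (`Pool/Agent/H718R2/G0.lean`). `OmegaStable n N r F`: all diffeomorphisms
of a neighbourhood of `F` in `Diff^r(N)` are conjugate to `F` on the nonwandering sets
(`Pool/Agent/TH80/OMS/Defs.lean`); `Per F`: the periodic points (`Pool/Agent/TH80/OMS/SymDefs.lean`).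
`ChartLip n N`: the distance of `N` is compatible with the smooth structure: every chart `χ` of the
smooth structure with `χ z = 0` whose target contains the closed unit ball is bi-Lipschitz on the ball
`‖χ ·‖ ≤ 1/2` (for instance a Riemannian distance; `Pool/Agent/Y368/CL/Met.lean`).
`LipTo F m Γ`: `Γ` is a Lipschitz constant of `F^i` for all `|i| ≤ 2m` (`Pool/Agent/Y368/CL/Grow.lean`).

Proof: at points where returns are not slow the starting closing criterion (projects SC and CO) can be
applied with a perturbation whose support is close to the point (`Pool/Agent/Q154/OS/Loc.lean`); so it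
destroys no periodic orbit of `F` and creates a new one, which contradicts `Ω`-stability, since the
(finite) numbers of the points of each period are constant near `F`.
-/

set_option autoImplicit false

open scoped Manifold ContDiff Topology

universe u

namespace Pool.Agent.Results.MP_814647_an.SlowReturnsOffPeriodicPoints

open Pool.Agent.H718R2.G Pool.Agent.TH80.OMS Pool.Agent.Y368.CL Pool.Agent.Q154.OS

/-- Returns near `z` are at most polynomially fast in the growth of the iterates of `F`: if
`Λ m ≥ m` is a Lipschitz constant of all `F^i`, `|i| ≤ 2m`, then for some finite order `k ≤ r`, some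
`c > 0` and all `y` close to `z`: `dist (F^m y) y ≥ c / Λ(m)^b(k)` for all `m ≥ 1`. -/
def SlowAt {n : ℕ} {N : Type u} [MetricSpace N] [ChartedSpace (V n) N] {r : ℕ∞} (b : ℕ → ℕ)
    (F : DiffM n N r) (z : N) : Prop :=
  ∀ Λ : ℕ → ℝ, (∀ m, LipTo F m (Λ m)) → (∀ m : ℕ, (m : ℝ) ≤ Λ m) →
    ∃ k : ℕ, (k : ℕ∞) ≤ r ∧ ∃ W ∈ 𝓝 z, ∃ c : ℝ, 0 < c ∧
      ∀ y ∈ W, ∀ m : ℕ, 1 ≤ m → c / (Λ m) ^ b k ≤ dist (F^[m] y) y

/-- There are UNIVERSAL exponents `a n k` such that for every closed `n`-manifold `N` with a compatible
distance, every `2 ≤ r ≤ ∞` and EVERY `Ω`-stable `F ∈ Diff^r(N)`: near each point which is not a limit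
of periodic points of `F`, in particular near each nonwandering point of this kind, returns are slow. -/
theorem result : ∃ a : ℕ → ℕ → ℕ, ∀ (n : ℕ) (N : Type u) [MetricSpace N] [CompactSpace N]
    [ChartedSpace (V n) N] [IsManifold (𝓡 n) ∞ N] (r : ℕ∞), 2 ≤ r → ChartLip n N →
    ∀ F : DiffM n N r, OmegaStable n N r F → ∀ z, z ∉ closure (Per F) → SlowAt (a n) F z := by
  obtain ⟨a, ha⟩ := loc_main.{u}
  refine ⟨a, fun n N _ _ _ _ r hr hN F hF z hz Λ h3 h4 => ?_⟩
  have hr1 : (1 : ℕ∞) ≤ r := le_trans (by norm_num) hr
  rcases ha n N hN r hr F Λ h3 h4 z with h | h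
  · exact absurd (mem_closure_per hr1 hF h) hz
  · exact h

end Pool.Agent.Results.MP_814647_an.SlowReturnsOffPeriodicPoints
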