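import Pool.Agent.Q154.OS.Basic
import Pool.Agent.TH290.CL.Main

/-!
# Converse of the `Ω`-stability theorem: roots of suspension flows, products with rotations

`V n = ℝⁿ`, `DiffM n N r = Diff^r(N)`, `strongTop n N r` is its strong (Whitney) `C^r` topology (the
usual one, `N` being compact) (`Pool/Agent/H718R2/G0.lean`). `OmegaStable n N r F`: all diffeomorphisms
of a neighbourhood of `F` in `Diff^r(N)` are conjugate to `F` on the nonwandering sets
(`Pool/Agent/TH80/OMS/Defs.lean`). `IsFlow n N ψ`: `ψ` is a smooth action of `ℝ` on `N`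
(`Pool/Agent/TH290/CL/Flow.lean`).
`RootOn n N r F ψ a K α i j` (`Pool/Agent/TH290/CL/Main.lean`): `K` is invariant under `F`, `F⁻¹` and
the smooth flow `ψ`; on `K` the map `F` commutes with `ψ` and `F^i = ψ_(i α + j)` with coprime `i`,
`j`; `a : N → ℂ` is smooth with `|a| = 1`, `a (ψ_t y) = exp(2πit) a(y)`, `a (F y) = exp(2πiα) a(y)` on
`K`. Here `K = N`: `F` is a root of a suspension flow.

The theorems `product_rotation` (`F = f × R_α`, `f` arbitrary) and `suspension_time_map` (`F = ψ_α`, `ψ` the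
suspension flow of an arbitrary diffeomorphism) are special cases of the result.
-/

set_option autoImplicit false

open Set
open scoped Manifold ContDiff Topology

universe u

namespace Pool.Agent.Results.MP_814647_an.SuspensionTimeMaps

open Pool.Agent.H718R2.G Pool.Agent.TH80.OMS Pool.Agent.TH290.CL Pool.Agent.Y504.CO
  Pool.Agent.Q154.OS

/-- `F` is a root of a suspension flow on `N`. -/
def IsSuspensionRoot (n : ℕ) (N : Type u) [TopologicalSpace N] [ChartedSpace (V n) N] (r : ℕ∞)
    (F : DiffM n N r) : Prop :=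
  ∃ (ψ : ℝ → N → N) (a : N → ℂ) (α : ℝ) (i : ℕ) (j : ℤ), RootOn n N r F ψ a Set.univ α i j

/-- Let `N` be a nonempty closed manifold and `1 ≤ r ≤ ∞`. No `Ω`-stable `F ∈ Diff^r(N)` is a root of a
suspension flow, or a `C^r` limit of roots of suspension flows. -/
theorem result {n : ℕ} {N : Type u} [TopologicalSpace N] [T2Space N] [CompactSpace N] [Nonempty N]
    [ChartedSpace (V n) N] [IsManifold (𝓡 n) ∞ N] (r : ℕ∞) (hr : 1 ≤ r) (F : DiffM n N r)
    (h : ∀ U : Set (DiffM n N r), IsOpen[strongTop n N r] U → F ∈ U →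
      ∃ F' ∈ U, IsSuspensionRoot n N r F') : ¬ OmegaStable n N r F := by
  intro hF
  obtain ⟨U₁, hU₁, hFU₁, hfin⟩ := finite_per hr hF
  obtain ⟨U₂, hU₂, hFU₂, hper⟩ := per_of_closable hF
  obtain ⟨F', ⟨hF'₁, hF'₂⟩, ψ, a, α, i, j, hroot⟩ := h (U₁ ∩ U₂)
    (@IsOpen.inter _ (strongTop n N r) _ _ hU₁ hU₂) ⟨hFU₁, hFU₂⟩
  obtain ⟨z, -, hz⟩ := exists_rec (F' : N → N) F'.continuous univ isClosed_univ univ_nonempty
    (fun _ _ => mem_univ _)
  have hzc := Pool.Agent.TH290.CL.main r hr F' hroot z (mem_univ z)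
    (isRec_of_rec F'.toHomeomorph hz)
  obtain ⟨p, k, hk, hp⟩ := hper F' hF'₂ z hzc
  have hinf : (range fun t : ℝ => ψ t p).Infinite := by
    intro hfin'
    have h1 : (a '' range fun t : ℝ => ψ t p).Finite := hfin'.image a
    have h2 : (range fun t : Ico (0 : ℝ) 1 => ex t * a p).Finite := by
      refine h1.subset ?_
      rintro _ ⟨t, rfl⟩
      exact ⟨ψ t p, ⟨t, rfl⟩, hroot.eigψ p (mem_univ p) t⟩
    have h3 : Function.Injective fun t : Ico (0 : ℝ) 1 => ex t * a p := by
      intro s t hst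
      have ha : a p ≠ 0 := by
        intro h0
        have := hroot.norm p (mem_univ p)
        rw [h0, norm_zero] at this
        norm_num at this
      have h4 : ex s = ex t := mul_right_cancel₀ ha hst
      obtain ⟨l, hl⟩ := ex_eq_ex h4
      have hs := s.2
      have ht := t.2
      have h5 : (l : ℝ) < 1 := by rw [← hl]; linarith [hs.1, hs.2, ht.1, ht.2]
      have h6 : (-1 : ℝ) < l := by rw [← hl]; linarith [hs.1, hs.2, ht.1, ht.2]
      have h7 : l < 1 := by exact_mod_cast h5
      have h8 : -1 < l := by exact_mod_cast h6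
      have h9 : l = 0 := by omega
      rw [h9, Int.cast_zero] at hl
      exact Subtype.ext (by linarith)
    have h10 : Finite (Ico (0 : ℝ) 1) := Set.finite_coe_iff.1 (Set.finite_range_iff h3 |>.1 h2) |>.to_subtype
    exact (Ico_infinite (zero_lt_one (α := ℝ))) (Set.toFinite _)
  refine hinf ((hfin F' hF'₁ k hk).subset ?_)
  rintro _ ⟨t, rfl⟩
  show F'^[k] (ψ t p) = ψ t p
  rw [hroot.iter_comm k p (mem_univ p) t, hp]

/-- Special case `F = f × R_α` on `N = M × S¹` with `f` an arbitrary diffeomorphism of `M` and `R_α` an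
arbitrary rotation: `F` commutes with a smooth circle action `ψ` and `a : N → S¹` is a smooth equivariant
map with `a ∘ F = exp(2πiα) a`. -/
theorem product_rotation {n : ℕ} {N : Type u} [TopologicalSpace N] [T2Space N] [CompactSpace N]
    [Nonempty N] [ChartedSpace (V n) N] [IsManifold (𝓡 n) ∞ N] (r : ℕ∞) (hr : 1 ≤ r)
    (ψ : ℝ → N → N) (a : N → ℂ)
    (hψ : IsFlow n N ψ) (ha : ContMDiff (𝓡 n) 𝓘(ℝ, ℂ) ∞ a) (ha1 : ∀ y, ‖a y‖ = 1)
    (haψ : ∀ t y, a (ψ t y) = Complex.exp (2 * Real.pi * Complex.I * (t : ℝ)) * a y)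
    (hψ1 : ∀ y, ψ 1 y = y) (F : DiffM n N r) (α : ℝ) (hF : ∀ t y, F (ψ t y) = ψ t (F y))
    (haF : ∀ y, a (F y) = Complex.exp (2 * Real.pi * Complex.I * (α : ℝ)) * a y) :
    ¬ OmegaStable n N r F := by
  have hroot : RootOn n N r F ψ a Set.univ α 0 1 :=
    { flow := hψ
      smooth := ha
      inv := fun _ _ => Set.mem_univ _
      inv' := fun _ _ => Set.mem_univ _
      invψ := fun _ _ _ => Set.mem_univ _
      comm := fun y _ t => hF t y
      norm := fun y _ => ha1 y
      eigψ := fun y _ t => haψ t y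
      eigF := fun y _ => haF y
      cop := isCoprime_one_right
      root := fun y _ => by
        have e : ((0 : ℕ) : ℝ) * α + ((1 : ℤ) : ℝ) = 1 := by push_cast; ring
        rw [e, hψ1]
        rfl }
  exact result r hr F fun U _ hFU => ⟨F, hFU, ψ, a, α, 0, 1, hroot⟩

/-- Special case `F = ψ_α`, where `ψ` is the suspension flow of an arbitrary diffeomorphism: a smooth
flow with a smooth `a : N → S¹` such that `a ∘ ψ_t = exp(2πit) a`. -/
theorem suspension_time_map {n : ℕ} {N : Type u} [TopologicalSpace N] [T2Space N] [CompactSpace N]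
    [Nonempty N] [ChartedSpace (V n) N] [IsManifold (𝓡 n) ∞ N] (r : ℕ∞) (hr : 1 ≤ r)
    (ψ : ℝ → N → N) (a : N → ℂ)
    (hψ : IsFlow n N ψ) (ha : ContMDiff (𝓡 n) 𝓘(ℝ, ℂ) ∞ a) (ha1 : ∀ y, ‖a y‖ = 1)
    (haψ : ∀ t y, a (ψ t y) = Complex.exp (2 * Real.pi * Complex.I * (t : ℝ)) * a y)
    (F : DiffM n N r) (α : ℝ) (hF : ∀ y, F y = ψ α y) : ¬ OmegaStable n N r F := by
  have hroot : RootOn n N r F ψ a Set.univ α 1 0 :=
    { flow := hψ
      smooth := ha
      inv := fun _ _ => Set.mem_univ _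
      inv' := fun _ _ => Set.mem_univ _
      invψ := fun _ _ _ => Set.mem_univ _
      comm := fun y _ t => by
        rw [hF, hF, ← hψ.add, ← hψ.add, add_comm]
      norm := fun y _ => ha1 y
      eigψ := fun y _ t => haψ t y
      eigF := fun y _ => by
        rw [hF]
        exact haψ α y
      cop := isCoprime_one_left
      root := fun y _ => by
        have e : ((1 : ℕ) : ℝ) * α + ((0 : ℤ) : ℝ) = α := by push_cast; ring
        rw [e, Function.iterate_one, hF] }
  exact result r hr F fun U _ hFU => ⟨F, hFU, ψ, a, α, 1, 0, hroot⟩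

end Pool.Agent.Results.MP_814647_an.SuspensionTimeMaps
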