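import Pool.Agent.Q189.FL.Flow

/-!
# Converse of the `Ω`-stability theorem for limits of time maps of flows without nonperiodic recurrence

Let `N` be a closed smooth manifold and `1 ≤ r ≤ ∞`.

1. Let `Φ` be a flow by `C^r` diffeomorphisms of `N`, continuous at the time `1` for the `C^r` topology (flows
of `C^r` vector fields are of this kind). If `Φ 1` is `Ω`-stable in `Diff^r(N)`, then `Φ` has no closed orbits,
the periodic points of `Φ 1` are the rest points of the flow, they are finite in number, and they are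
hyperbolic.

2. Let `F` be `Ω`-stable in `Diff^r(N)`, and let `F` be a limit in `Diff^r(N)` of maps `Φ 1`, where `Φ` is a
flow as above (which depends on the approximation) whose recurrent points, with at most countably many
exceptions, are rest points or lie on closed orbits. Then `Ω(F)` is finite and consists of hyperbolic periodic
points, and `F` has no cycles. (By the Poincaré-Bendixson theorem, which is not formalised here, all `C^r`
flows on the two-sphere are such flows.)

Proof. If `x` lies on a closed orbit of period `T`, then for times `s = T b / a` near `1` with integers `a`, `b`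
all points of the orbit are fixed by `(Φ s)^a`; but near an `Ω`-stable map there are only finitely many points
of each period (library `TH80.OMS` of the starting files), so `x` is a rest point. So if the recurrent points
of the flow are periodic, those of `Φ 1` are rest points, and the theorem of project CO of the starting files
(`Y504.CO`) applies to `Φ 1`; the finiteness of `Ω` passes to `F`, and the theorem applies again. The set of
the nonperiodic recurrent points of a flow is invariant, so it is empty if it is countable.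
-/

set_option autoImplicit false

open scoped Manifold ContDiff Topology

universe u

namespace Pool.Agent.Results.MP_814647_an.TimeMapsOfFlows

open Pool.Agent.H718R2.G Pool.Agent.TH80.OMS

/-- A flow by `C^r` diffeomorphisms: a one-parameter group, continuous in the parameter, with
`Φ s → Φ 1` in the `C^r` topology for `s → 1`. -/
structure IsFlow (n : ℕ) (N : Type u) [TopologicalSpace N] [ChartedSpace (V n) N] (r : ℕ∞)
    (Φ : ℝ → DiffM n N r) : Prop where
  add : ∀ s t x, Φ (s + t) x = Φ s (Φ t x)
  cont : ∀ x, Continuous fun t => Φ t x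
  tend : ∀ U : Set (DiffM n N r), IsOpen[strongTop n N r] U → Φ 1 ∈ U → ∀ᶠ s in 𝓝 (1 : ℝ), Φ s ∈ U

variable {n : ℕ} {N : Type u} [TopologicalSpace N] [ChartedSpace (V n) N] {r : ℕ∞}

/-- The recurrent points of the flow: every neighbourhood of `x` contains some `Φ t x`, `t ≥ 1`. -/
def Recurrent (Φ : ℝ → DiffM n N r) : Set N := {x | ∀ W ∈ 𝓝 x, ∃ t : ℝ, 1 ≤ t ∧ Φ t x ∈ W}

/-- The rest points of the flow and the points on closed orbits. -/
def Closed (Φ : ℝ → DiffM n N r) : Set N := {x | ∃ t : ℝ, 0 < t ∧ Φ t x = x}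

/-- The rest points of the flow. -/
def Rest (Φ : ℝ → DiffM n N r) : Set N := {x | ∀ t : ℝ, Φ t x = x}

/-- `F` is a limit in `Diff^r(N)` of time maps `Φ 1` of flows whose recurrent points, with at most countably
many exceptions, are rest points or lie on closed orbits. -/
def IsLimitOfTimeMaps (F : DiffM n N r) : Prop :=
  ∀ U : Set (DiffM n N r), IsOpen[strongTop n N r] U → F ∈ U →
    ∃ Φ : ℝ → DiffM n N r, IsFlow n N r Φ ∧ (Recurrent Φ \ Closed Φ).Countable ∧ Φ 1 ∈ U

/-- `p` is a hyperbolic periodic point of `F`: `F^m(p) = p` for some `m ≥ 1`, and for every such `m`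
and every chart `ψ` at `p` no eigenvalue of the derivative `D` of `F^m` at `p` has modulus one. -/
def IsHyperbolicPer (n : ℕ) {N : Type u} [TopologicalSpace N] [ChartedSpace (V n) N]
    (F : N → N) (p : N) : Prop :=
  p ∈ Per F ∧ ∀ m : ℕ, 1 ≤ m → F^[m] p = p → ∀ ψ ∈ IsManifold.maximalAtlas (𝓡 n) ∞ N,
    p ∈ ψ.source → ∃ D : V n →L[ℝ] V n, HasFDerivAt (fun v => ψ (F^[m] (ψ.symm v))) D (ψ p) ∧
      ∀ μ : ℂ, ((LinearMap.charpoly (D : V n →ₗ[ℝ] V n)).map (algebraMap ℝ ℂ)).IsRoot μ → ‖μ‖ ≠ 1

/-- `F` is in `U₃`, with finite `Ω(F)`: `Ω(F)` is finite, consists of hyperbolic periodic points, and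
there are no cycles. -/
def FiniteU3 (F : DiffM n N r) : Prop := FiniteNoCycle F ∧ ∀ p ∈ Omega F, IsHyperbolicPer n F p

/-- **`Ω`-stable time maps of flows and their limits.** -/
theorem result (n : ℕ) (N : Type u) [TopologicalSpace N] [T2Space N] [CompactSpace N]
    [ChartedSpace (V n) N] [IsManifold (𝓡 n) ∞ N] (r : ℕ∞) (hr : 1 ≤ r) :
    (∀ Φ : ℝ → DiffM n N r, IsFlow n N r Φ → OmegaStable n N r (Φ 1) →
      Per (Φ 1) = Rest Φ ∧ Closed Φ = Rest Φ ∧ (Rest Φ).Finite ∧
        ∀ p ∈ Rest Φ, IsHyperbolicPer n (Φ 1) p) ∧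
    (∀ F : DiffM n N r, OmegaStable n N r F → IsLimitOfTimeMaps F → FiniteU3 F) := by
  have conv : ∀ Φ : ℝ → DiffM n N r, IsFlow n N r Φ → Pool.Agent.Q189.FL.IsFlow n N r Φ :=
    fun Φ h => ⟨h.add, h.cont, h.tend⟩
  refine ⟨fun Φ hΦ hs => ?_, fun F hF hlim => ?_⟩
  · obtain ⟨h1, h2, h3⟩ := Pool.Agent.Q189.FL.per_eq hr (conv Φ hΦ) hs
    refine ⟨h1, h2, h3, fun p hp => ?_⟩
    exact Pool.Agent.Y504.CO.Gen.stable_hyp hr hs p (by rw [h1]; exact hp)
  · refine Pool.Agent.Q189.FL.limit_main hr hF fun U hU hFU => ?_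
    obtain ⟨Φ, hΦ, hc, hΦU⟩ := hlim U hU hFU
    exact ⟨Φ, conv Φ hΦ, hc, hΦU⟩

end Pool.Agent.Results.MP_814647_an.TimeMapsOfFlows
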