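import Pool.Agent.Q182.OT5

/-!
# Converse of the `Ω`-stability theorem: recurrence on tori with triangular return maps

Let `N` be a closed smooth manifold, `1 ≤ r ≤ ∞`, and let `F ∈ Diff^r(N)` be `Ω`-stable. Suppose that
`F` is a limit in `Diff^r(N)` of diffeomorphisms `G` (for instance `G = F`) such that all but
countably many nonperiodic recurrent points of `G` lie on smooth `G`-periodic tori `K ≅ 𝕋^k`
(`G^m(K) = K`, the tori and their dimensions `k` may vary with the point, there may be infinitely
many of them) on which the return map is triangular in the coordinates of the torus,
`(θ_1, ..., θ_k) ↦ (f_1(θ_1), f_2(θ_1, θ_2), ..., f_k(θ_1, ..., θ_k))`. Then `Ω(F)` is finite and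
consists of hyperbolic periodic points, and `F` has no cycles.

For example this covers all towers of circle diffeomorphisms over a homeomorphism `T : B → B` all of
whose recurrent points are periodic,
`F(b, θ_1, ..., θ_k) = (T(b), f_1(b, θ_1), ..., f_k(b, θ_1, ..., θ_k))`, in particular the triangular
diffeomorphisms of tori of any dimension, and (`k = 1`) all `F` whose nonperiodic recurrent points lie
on periodic smooth circles. `F` is compared with all nearby diffeomorphisms, not only with those of
the class.

Idea: all maps near `F` have only hyperbolic periodic points. If a base circle map of the tower has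
no periodic point, then for a first small parameter of a translation along the circle the base map
touches a rational translation. Over a touching point the tower of lower dimension contains a periodic
point by induction, and there the derivative of the return map has the eigenvalue one.

The proof uses the theorem of project CO (helper504 and helpers 3, 38, 67, 96, 117, 284, 286, 306,
329, 333, 417, 600, 614, 739, 810, 832, 863, 921, 929, 948, 987) on `Ω`-stable diffeomorphisms with
countably many nonperiodic recurrent points, in particular that `Ω`-stable diffeomorphisms have only
hyperbolic periodic points, and the perturbations along flows of helpers 80 and 290.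

Author of this result (`Pool/Agent/Q182/OT1`-`OT5`): helper182.
-/

set_option autoImplicit false

open scoped Manifold ContDiff Topology

universe u

namespace Pool.Agent.Results.MP_814647_an.TriangularTori

open Pool.Agent.H718R2.G Pool.Agent.TH80.OMS Pool.Agent.Y504.CO Pool.Agent.Q182.OT

theorem result (n : ℕ) (N : Type u) [TopologicalSpace N] [T2Space N] [CompactSpace N]
    [ChartedSpace (V n) N] [IsManifold (𝓡 n) ∞ N] (r : ℕ∞) (hr : 1 ≤ r) (F : DiffM n N r)
    (hF : OmegaStable n N r F)
    (h : ∀ U : Set (DiffM n N r), IsOpen[strongTop n N r] U → F ∈ U →
      ∃ G ∈ U, {x | x ∈ Rec G ∧ x ∉ Per G ∧ ¬ OnTorus n N G x}.Countable) :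
    FiniteNoCycle F ∧ ∀ p ∈ Omega F, IsHyperbolicPer n F p :=
  tri_main hr hF h

end Pool.Agent.Results.MP_814647_an.TriangularTori
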